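import Mathlib
import Pool.Agent.X318.TMInv
import Pool.Agent.X318.HankDiag

/-!
# MP_be5c27_co, Q1: the diagonal Hankel determinant `H_{n,n}` of the inverse Thue–Morse series
is the indicator function of the Moser–de Bruijn set.
-/

set_option autoImplicit false

namespace Pool.Agent.Results.MP_be5c27_co.HankelDiagonal

open PowerSeries X318.HankPar X318.TMInv

/-- The Thue–Morse sequence `t_n = s_2(n) mod 2` as an element of `𝔽₂`. -/
def t (n : ℕ) : ZMod 2 := (((Nat.digits 2 n).sum : ℕ) : ZMod 2)

/-- `F(X) = ∑_{n ≥ 1} t_n X^n ∈ 𝔽₂[[X]]` -/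
noncomputable def F : PowerSeries (ZMod 2) := PowerSeries.mk fun n => if 1 ≤ n then t n else 0

/-- `G` is the compositional inverse of `F`: zero constant term, `F(G(X)) = X`, `G(F(X)) = X`. -/
def IsCompInv (G : PowerSeries (ZMod 2)) : Prop :=
  constantCoeff G = 0 ∧ PowerSeries.subst G F = X ∧ PowerSeries.subst F G = X

/-- the coefficient `c_n` of `G`, regarded as the integer `0` or `1` -/
noncomputable def c (G : PowerSeries (ZMod 2)) (n : ℕ) : ℤ := ((coeff n G).val : ℤ)

/-- The Hankel matrix `h_{p,n}`. With 1-based row and column indices `i + 1`, `j + 1`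
(`i j : Fin n`), the entry is `c_{p + (i + 1) + (j + 1) - 1}`. -/
noncomputable def h (G : PowerSeries (ZMod 2)) (p n : ℕ) : Matrix (Fin n) (Fin n) ℤ :=
  Matrix.of fun i j => c G (p + ((i : ℕ) + 1) + ((j : ℕ) + 1) - 1)

/-- `n` is a sum of distinct powers of `4`. -/
def IsMoserDeBruijn (n : ℕ) : Prop := ∃ s : Finset ℕ, n = ∑ k ∈ s, 4 ^ k

lemma F_eq' : F = X318.TMInv.F := by
  ext n
  unfold F X318.TMInv.F
  rw [coeff_mk, coeff_mk]
  rcases Nat.eq_zero_or_pos n with h | h
  · subst h; simp [tm_zero]
  · rw [if_pos (show 1 ≤ n from h)]; rfl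

lemma phi_iff (n : ℕ) : phi n = 1 ↔ IsMoserDeBruijn n := by
  induction n using Nat.strong_induction_on with
  | _ n ih =>
    rcases Nat.eq_zero_or_pos n with hn | hn
    · subst hn
      exact ⟨fun _ => ⟨∅, by simp⟩, fun _ => phi_zero⟩
    · constructor
      · intro h
        rw [phi, dif_neg (by omega)] at h
        by_cases h4 : n % 4 ≤ 1
        · rw [if_pos h4] at h
          obtain ⟨s, hs⟩ := (ih (n / 4) (by omega)).mp h
          have hsum : ∑ k ∈ s.image (fun k => k + 1), 4 ^ k = 4 * (n / 4) := by
            rw [Finset.sum_image (fun a _ b _ h => by simpa using h), hs, Finset.mul_sum]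
            exact Finset.sum_congr rfl fun k _ => by rw [pow_succ]; ring
          by_cases h0 : n % 4 = 0
          · exact ⟨_, by rw [hsum]; omega⟩
          · refine ⟨insert 0 (s.image (fun k => k + 1)), ?_⟩
            rw [Finset.sum_insert (by simp), hsum]
            simp; omega
        · rw [if_neg h4] at h; exact absurd h (by norm_num)
      · rintro ⟨s, hs⟩
        set s0 := s.erase 0 with hs0
        have hinj : Set.InjOn (fun k : ℕ => k - 1) (s0 : Set ℕ) := by
          intro a ha b hb hab
          simp only [hs0, Finset.coe_erase, Set.mem_sdiff, Finset.mem_coe, Set.mem_singleton_iff] at ha hb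
          simp only at hab
          omega
        have e1 : ∑ k ∈ s0, 4 ^ k = 4 * ∑ k ∈ s0.image (fun k => k - 1), 4 ^ k := by
          rw [Finset.sum_image hinj, Finset.mul_sum]
          apply Finset.sum_congr rfl
          intro k hk
          have : k ≠ 0 := by
            intro h; subst h; simp [hs0] at hk
          obtain ⟨j, rfl⟩ : ∃ j, k = j + 1 := ⟨k - 1, by omega⟩
          rw [show j + 1 - 1 = j by omega, pow_succ]; ring
        have e2 : n = (if 0 ∈ s then 1 else 0) + 4 * ∑ k ∈ s0.image (fun k => k - 1), 4 ^ k := by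
          rw [hs, ← e1]
          split_ifs with h0
          · rw [← Finset.insert_erase h0, Finset.sum_insert (Finset.notMem_erase 0 s), ← hs0]
            simp
          · rw [hs0, Finset.erase_eq_of_notMem h0]; simp
        have e3 : n / 4 = ∑ k ∈ s0.image (fun k => k - 1), 4 ^ k := by
          rw [e2]; split_ifs <;> omega
        have e4 : n % 4 ≤ 1 := by
          rw [e2]; split_ifs <;> omega
        rw [phi, dif_neg (by omega), if_pos e4]
        exact (ih (n / 4) (by omega)).mpr ⟨_, e3⟩

open Classical in
/-- The Thue–Morse series has exactly one compositional inverse `G`, and for it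
`H_{n,n} = 1` if `n` is a sum of distinct powers of `4`, and `H_{n,n} = 0` otherwise. -/
theorem result : (∃! G : PowerSeries (ZMod 2), IsCompInv G) ∧
    ∀ G : PowerSeries (ZMod 2), IsCompInv G → ∀ n : ℕ, 1 ≤ n →
      (h G n n).det = if IsMoserDeBruijn n then 1 else 0 := by
  constructor
  · obtain ⟨G, h0, h1, h2⟩ := exists_inv
    refine ⟨G, ⟨h0, by rw [F_eq']; exact h1, by rw [F_eq']; exact h2⟩, ?_⟩
    rintro G' ⟨h0', h1', -⟩
    rw [F_eq'] at h1'
    ext m
    rcases Nat.eq_zero_or_pos m with hm | hm
    · subst hm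
      rw [coeff_zero_eq_constantCoeff_apply, coeff_zero_eq_constantCoeff_apply, h0, h0']
    · have e1 := G_coeff h0 h1 m hm
      have e2 := G_coeff h0' h1' m hm
      rw [← e1] at e2
      exact ZMod.val_injective 2 (by exact_mod_cast e2)
  · rintro G ⟨h0, h1, -⟩ n _
    rw [F_eq'] at h1
    have e : (h G n n).det = D cc ((n : ℤ) + 2) n := by
      unfold D dN h
      congr 1
      ext i j
      simp only [Matrix.of_apply]
      unfold c
      rw [G_coeff h0 h1 _ (by omega)]
      have : ((n : ℤ) + 2 + (i : ℕ) + (j : ℕ)) = ((n + 2 + i + j : ℕ) : ℤ) := by push_cast; ring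
      rw [this, cc_nat]
      congr 1
      omega
    rw [e, D_cc_diag]
    split_ifs with hM
    · exact (phi_iff n).mpr hM
    · rcases phi_01 n with h' | h'
      · exact h'
      · exact absurd ((phi_iff n).mp h') hM

end Pool.Agent.Results.MP_be5c27_co.HankelDiagonal
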